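import Pool.Agent.H12.RS.Def
import Pool.Agent.H69L.TP.Rule

/-!
# H12.RS.Cf: the marks of R* and the differences of the numbers of marks in a configuration
-/

set_option autoImplicit false
set_option linter.unusedSectionVars false

namespace Pool.Agent.H12.RS

open Finset Pool.Agent.H93.EA Pool.Agent.H69L.TP

/-- The complement word. -/
def nw (w : ℕ → Bool) : ℕ → Bool := fun i => !w i

/-- The marks of the word `w` with the set `I` of empty gaps. -/
def zz (c r : ℕ) (w : ℕ → Bool) (I : Finset ℕ) : Mk where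
  Z := X c r I w ∪ X c r I (nw w)
  Wp := W c r I (nw w)
  Wm := W c r I w

/-- The difference of the marks of the line `g + c` and of the line before it (mod `c + r`). -/
noncomputable def hf (c r : ℕ) (x : Mk) (g : ℕ) : ℝ :=
  if g = 0 then bm x 0 - wm x (c - 1)
  else if g < r then bm x g - bm x (g - 1)
  else if g = r then wm x 0 - bm x (r - 1)
  else wm x (g - r) - wm x (g - r - 1)

section

variable {α : Type} [Fintype α]

/-- The marks of the point `a` at the configuration `τ`. -/
def zp (ρ : ℕ → α → ℕ) (m c r N : ℕ) (τ : ℕ → ℕ) (a : α) : Mk :=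
  zz c r (wd ρ m (c + r) τ a) (eg (c + r) N τ)

/-- The difference of the numbers of marks of the lines `g + c` and `g + c - 1` (mod `c + r`). -/
noncomputable def FH (ρ : ℕ → α → ℕ) (m c r N : ℕ) (τ : ℕ → ℕ) (g : ℕ) : ℝ :=
  ∑ a, hf c r (zp ρ m c r N τ a) g

/-- The gap `g` of a configuration. -/
def gq (C N : ℕ) (τ : ℕ → ℕ) (g : ℕ) : ℕ := if g = 0 then N - τ (C - 1) else τ g - τ (g - 1)

lemma mem_eg {C N : ℕ} {τ : ℕ → ℕ} (hτ : Cfg C N τ) {g : ℕ} (hg : g < C) :
    g ∈ eg C N τ ↔ gq C N τ g = 0 := by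
  unfold eg gq
  rw [mem_filter, mem_range]
  by_cases h0 : g = 0
  · subst h0
    rw [if_pos rfl]
    have h1 := hτ.le (C - 1)
    constructor
    · rintro ⟨_, h2 | h2⟩
      · omega
      · omega
    · intro h2
      exact ⟨hg, Or.inl ⟨rfl, by omega⟩⟩
  · rw [if_neg h0]
    have h1 := hτ.mono (g - 1) g (Nat.sub_le _ _) hg
    constructor
    · rintro ⟨_, h2 | h2⟩
      · omega
      · omega
    · intro h2
      exact ⟨hg, Or.inr ⟨by omega, by omega⟩⟩

lemma hf_zero (c r : ℕ) (x : Mk) : hf c r x 0 = bm x 0 - wm x (c - 1) := if_pos rfl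

lemma hf_lt {c r g : ℕ} (x : Mk) (h : g ≠ 0) (h' : g < r) : hf c r x g = bm x g - bm x (g - 1) := by
  unfold hf
  rw [if_neg h, if_pos h']

lemma hf_r {c r : ℕ} (x : Mk) (h : 0 < r) : hf c r x r = wm x 0 - bm x (r - 1) := by
  unfold hf
  rw [if_neg (by omega), if_neg (by omega), if_pos rfl]

lemma hf_gt {c r g : ℕ} (x : Mk) (h : r < g) : hf c r x g = wm x (g - r) - wm x (g - r - 1) := by
  unfold hf
  rw [if_neg (by omega), if_neg (by omega), if_neg (by omega)]

end

end Pool.Agent.H12.RS
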