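import Pool.Agent.H85.TK.Count

/-!
# H12.RS.Def: the one-sided rule R*

Free lines `[0, c)`, bases `[c, c + r)`, word `w : ℕ → Bool`, set `I` of empty gaps. The free zeros
are released one after the other. At the step `T < r` the base line `c + T` is marked iff it is a one,
the line `T` is a zero when it is free, and the number of the released unused free zeros (the release
at `T` included) is at least the threshold `th`.
-/

set_option autoImplicit false

namespace Pool.Agent.H12.RS

open Finset Pool.Agent.H85.TK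

/-- The threshold at the step `T`. -/
def th (c r : ℕ) (I : Finset ℕ) (T : ℕ) : ℕ :=
  if T < c then 1 + (be I r T - c) else be I r T - T

/-- The condition of a mark at the step `T`, apart from the bit of the line `c + T`; `s` is the number
of the released unused free zeros before the step. -/
def Ph (c r : ℕ) (I : Finset ℕ) (w : ℕ → Bool) (T s : ℕ) : Prop :=
  (T < c → w T = false) ∧ th c r I T ≤ s + rel c w T

instance (c r : ℕ) (I : Finset ℕ) (w : ℕ → Bool) (T s : ℕ) : Decidable (Ph c r I w T s) := by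
  unfold Ph
  infer_instance

/-- The number of the released unused free zeros before the step `T`. -/
def sr (c r : ℕ) (I : Finset ℕ) (w : ℕ → Bool) : ℕ → ℕ
  | 0 => 0
  | T + 1 => sr c r I w T + rel c w T -
      if w (c + T) = true ∧ Ph c r I w T (sr c r I w T) then 1 else 0

/-- The mark at the step `T`. -/
def mk (c r : ℕ) (I : Finset ℕ) (w : ℕ → Bool) (T : ℕ) : ℕ :=
  if w (c + T) = true ∧ Ph c r I w T (sr c r I w T) then 1 else 0

/-- The marked ones among the bases. -/
def X (c r : ℕ) (I : Finset ℕ) (w : ℕ → Bool) : Finset ℕ :=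
  (range r).filter fun T => w (c + T) = true ∧ Ph c r I w T (sr c r I w T)

/-- The number of the windows of this kind. -/
def A (c r : ℕ) (I : Finset ℕ) (w : ℕ → Bool) : ℕ := sr c r I w r

/-- The prefix sums of the windows at the ends of the blocks of windows. -/
def P (c r : ℕ) (I : Finset ℕ) (w : ℕ → Bool) (b : ℕ) : ℕ := min (A c r I w) (zs w 0 b)

/-- The start of the block of the window `f` (blocks of the lines `r + f`, `f < c`). -/
def ys (r : ℕ) (I : Finset ℕ) (f : ℕ) : ℕ :=
  Nat.findGreatest (fun y => y = 0 ∨ r + y ∉ I) f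

theorem ye_ex (r c : ℕ) (I : Finset ℕ) (f : ℕ) : ∃ y, f < y ∧ (c ≤ y ∨ r + y ∉ I) :=
  ⟨max (f + 1) c, lt_of_lt_of_le (Nat.lt_succ_self f) (le_max_left _ _), Or.inl (le_max_right _ _)⟩

/-- The end (exclusive) of the block of the window `f`. -/
def ye (r c : ℕ) (I : Finset ℕ) (f : ℕ) : ℕ := Nat.find (ye_ex r c I f)

/-- The windows of this kind: in every block the last `P ye - P ys` windows. -/
def W (c r : ℕ) (I : Finset ℕ) (w : ℕ → Bool) : Finset ℕ :=
  (range c).filter fun f =>
    ye r c I f ≤ f + (P c r I w (ye r c I f) - P c r I w (ys r I f))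

/-! ### first properties -/

theorem th_pos (c r : ℕ) (I : Finset ℕ) (T : ℕ) : 1 ≤ th c r I T := by
  have := be_gt I r T
  unfold th
  split_ifs <;> omega

theorem mk_le (c r : ℕ) (I : Finset ℕ) (w : ℕ → Bool) (T : ℕ) : mk c r I w T ≤ 1 := by
  unfold mk
  split_ifs <;> omega

theorem sr_succ (c r : ℕ) (I : Finset ℕ) (w : ℕ → Bool) (T : ℕ) :
    sr c r I w (T + 1) + mk c r I w T = sr c r I w T + rel c w T := by
  have h1 := th_pos c r I T
  have h2 : sr c r I w (T + 1) = sr c r I w T + rel c w T - mk c r I w T := rfl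
  have h3 : mk c r I w T ≤ sr c r I w T + rel c w T := by
    unfold mk
    split_ifs with h
    · exact h1.trans h.2.2
    · exact Nat.zero_le _
  omega

theorem X_sub (c r : ℕ) (I : Finset ℕ) (w : ℕ → Bool) : X c r I w ⊆ range r := filter_subset _ _

theorem W_sub (c r : ℕ) (I : Finset ℕ) (w : ℕ → Bool) : W c r I w ⊆ range c := filter_subset _ _

theorem X_one {c r : ℕ} {I : Finset ℕ} {w : ℕ → Bool} {T : ℕ} (h : T ∈ X c r I w) :
    w (c + T) = true := by
  unfold X at h
  exact (mem_filter.1 h).2.1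

/-- balance -/
theorem sr_bal (c r : ℕ) (I : Finset ℕ) (w : ℕ → Bool) (T : ℕ) :
    sr c r I w T + ∑ i ∈ range T, mk c r I w i = ∑ i ∈ range T, rel c w i := by
  induction T with
  | zero => simp [sr]
  | succ T ih =>
    rw [sum_range_succ, sum_range_succ]
    have h1 := sr_succ c r I w T
    omega

theorem card_X {c r : ℕ} {I : Finset ℕ} {w : ℕ → Bool} {a b : ℕ} (h' : b ≤ r) :
    ((X c r I w).filter fun T => a ≤ T ∧ T < b).card = ∑ i ∈ Ico a b, mk c r I w i := by
  have e : ((X c r I w).filter fun T => a ≤ T ∧ T < b) =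
      (Ico a b).filter fun T => w (c + T) = true ∧ Ph c r I w T (sr c r I w T) := by
    ext T
    unfold X
    simp only [mem_filter, mem_range, mem_Ico]
    constructor
    · rintro ⟨⟨h1, h2⟩, h3⟩
      exact ⟨h3, h2⟩
    · rintro ⟨h1, h2⟩
      exact ⟨⟨by omega, h2⟩, h1⟩
  rw [e, card_filter]
  rfl

theorem ys_le (r : ℕ) (I : Finset ℕ) (f : ℕ) : ys r I f ≤ f := Nat.findGreatest_le f

theorem ys_spec (r : ℕ) (I : Finset ℕ) (f : ℕ) : ys r I f = 0 ∨ r + ys r I f ∉ I :=
  Nat.findGreatest_spec (P := fun y => y = 0 ∨ r + y ∉ I) (Nat.zero_le f) (Or.inl rfl)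

theorem ys_mem {r : ℕ} {I : Finset ℕ} {f y : ℕ} (h : ys r I f < y) (h' : y ≤ f) : r + y ∈ I := by
  have := Nat.findGreatest_is_greatest (P := fun y => y = 0 ∨ r + y ∉ I) h h'
  by_contra h1
  exact this (Or.inr h1)

theorem ye_gt (r c : ℕ) (I : Finset ℕ) (f : ℕ) : f < ye r c I f := (Nat.find_spec (ye_ex r c I f)).1

theorem ye_spec (r c : ℕ) (I : Finset ℕ) (f : ℕ) : c ≤ ye r c I f ∨ r + ye r c I f ∉ I :=
  (Nat.find_spec (ye_ex r c I f)).2

theorem ye_le {r c : ℕ} {I : Finset ℕ} {f : ℕ} (h : f < c) : ye r c I f ≤ c :=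
  Nat.find_min' (ye_ex r c I f) ⟨h, Or.inl le_rfl⟩

theorem ye_mem {r c : ℕ} {I : Finset ℕ} {f y : ℕ} (h : f < y) (h' : y < ye r c I f) :
    r + y ∈ I ∧ y < c := by
  have h1 := Nat.find_min (ye_ex r c I f) h'
  by_contra h2
  apply h1
  refine ⟨h, ?_⟩
  by_cases h3 : y < c
  · right
    intro h4
    exact h2 ⟨h4, h3⟩
  · exact Or.inl (by omega)

end Pool.Agent.H12.RS
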