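import Pool.Agent.H12.RS.Cf
import Pool.Agent.H12.TP.Halve

/-!
# H12.RS.FaceG: on an empty gap `g ≠ 0, r` the difference `FH` is nonnegative
-/

set_option autoImplicit false
set_option linter.unusedSectionVars false

namespace Pool.Agent.H12.RS

open Finset Pool.Agent.H93.EA Pool.Agent.H69L.TP Pool.Agent.H85.TK

section word

variable {c r : ℕ} {I : Finset ℕ} {w u v : ℕ → Bool}

lemma Cb_nw (h : Cb c r I w) : Cb c r I (nw w) := by
  intro g hg h0 h1
  unfold nw
  rw [h g hg h0 h1]

lemma Cst_Cb (h : Cst (c + r) I w) : Cb c r I w := h.1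

lemma nw_true {i : ℕ} : nw w i = true ↔ w i = false := by
  unfold nw
  simp

lemma nw_false {i : ℕ} : nw w i = false ↔ w i = true := by
  unfold nw
  simp

lemma nw_nw (w : ℕ → Bool) : nw (nw w) = w := by
  funext i
  unfold nw
  simp

lemma mem_Z_one {j : ℕ} (h : w (c + j) = true) : j ∈ (zz c r w I).Z ↔ j ∈ X c r I w := by
  unfold zz
  rw [mem_union]
  constructor
  · rintro (h1 | h1)
    · exact h1
    · have := X_one h1
      rw [nw_true, h] at this
      exact absurd this (by simp)
  · exact Or.inl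

lemma mem_Z_zero {j : ℕ} (h : w (c + j) = false) : j ∈ (zz c r w I).Z ↔ j ∈ X c r I (nw w) := by
  unfold zz
  rw [mem_union]
  constructor
  · rintro (h1 | h1)
    · have := X_one h1
      rw [h] at this
      exact absurd this (by simp)
    · exact h1
  · exact Or.inr

lemma bm_of_mem {x : Mk} {j : ℕ} (h : j ∈ x.Z) : bm x j = 1 := if_pos h

lemma bm_of_not {x : Mk} {j : ℕ} (h : j ∉ x.Z) : bm x j = 0 := if_neg h

end word

/-- two coexisting words which change oppositely at the line `G` -/
lemma cx_past {C : ℕ} {u v : ℕ → Bool} (h : Cx C u v) {G : ℕ} (hG : G + 1 < C) (hu : u G = true)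
    (hv : v G = false) (hu' : u (G + 1) = false) (hv' : v (G + 1) = true) :
    ∀ i < G, v i = true → u i = true := by
  intro i hi hvi
  rcases h with ⟨k, h1, h2⟩ | ⟨k, h1, h2⟩
  · exfalso
    rcases lt_or_ge G k with h3 | h3
    · have := h1 G (by omega) h3 hu
      rw [hv] at this
      exact absurd this (by simp)
    · have := h2 (G + 1) hG (by omega) hv'
      rw [hu'] at this
      exact absurd this (by simp)
  · rcases lt_or_ge G k with h3 | h3
    · exact h1 i (by omega) (by omega) hvi
    · have := h2 G (by omega) h3 hu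
      rw [hv] at this
      exact absurd this (by simp)

section cfg

variable {α : Type} [Fintype α] {N : ℕ} {ρ : ℕ → α → ℕ}

lemma card_wd (h : ASeq N ρ) {m C : ℕ} (hm : Fintype.card α = 2 * m) {τ : ℕ → ℕ}
    (hτ : ∀ i, τ i ≤ N) {i : ℕ} (hi : i < C) :
    (univ.filter fun a => wd ρ m C τ a i = true).card = m := by
  classical
  have h1 := card_pre h (hτ i) (j := m) (by omega)
  have h2 : (univ.filter fun a => wd ρ m C τ a i = true) = pre ρ (τ i) m := by
    ext a
    rw [mem_pre]
    unfold wd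
    simp only [mem_filter, mem_univ, true_and, decide_eq_true_eq]
    exact and_iff_right hi
  rw [h2, h1]

/-- the faces of the bases -/
theorem faceG_base (h : ASeq N ρ) {m c r : ℕ} (hm : Fintype.card α = 2 * m) (hc : 0 < c)
    {τ : ℕ → ℕ} (hτ : Cfg (c + r) N τ)
    (hup : ∀ I w g, Cb c r I w → g ∈ I → 0 < g → g < r → g - 1 ∈ X c r I w → w (c + g) = true →
      g ∈ X c r I w)
    (hpair : ∀ I u v g, Cb c r I u → Cb c r I v → g ∈ I → 0 < g → g < r →
      (∀ i < c + g - 1, v i = true → u i = true) → g - 1 ∈ X c r I u → v (c + g) = true →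
      g ∈ X c r I v)
    {g : ℕ} (h0 : g ≠ 0) (hgr : g < r) (hg : gq (c + r) N τ g = 0) :
    0 ≤ FH ρ m c r N τ g := by
  classical
  have hgI : g ∈ eg (c + r) N τ := (mem_eg hτ (by omega)).2 hg
  set I := eg (c + r) N τ with hI
  have hcst : ∀ a, Cb c r I (wd ρ m (c + r) τ a) := fun a =>
    Cst_Cb (wd_cst h hm (by omega) hτ a)
  have e1 : c + (g - 1) = c + g - 1 := by omega
  unfold FH
  refine Pool.Agent.H12.TP.pair_sum
    (univ.filter fun a => wd ρ m (c + r) τ a (c + g - 1) = true)
    (univ.filter fun a => wd ρ m (c + r) τ a (c + g) = true) _ ?_ ?_ ?_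
  · rw [card_wd h hm hτ.le (by omega), card_wd h hm hτ.le (by omega)]
  · intro a ha
    simp only [mem_filter, mem_univ, true_and] at ha
    rw [hf_lt _ h0 hgr]
    unfold zp
    rw [← hI]
    by_cases h1 : g - 1 ∈ (zz c r (wd ρ m (c + r) τ a) I).Z
    · have h2 : g ∈ (zz c r (wd ρ m (c + r) τ a) I).Z := by
        by_cases h3 : wd ρ m (c + r) τ a (c + g - 1) = true
        · have h4 := ha.1 h3
          rw [mem_Z_one (by rw [e1]; exact h3)] at h1
          rw [mem_Z_one h4]
          exact hup I _ g (hcst a) hgI (by omega) hgr h1 h4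
        · have h4 : ¬ wd ρ m (c + r) τ a (c + g) = true := fun h5 => h3 (ha.2 h5)
          rw [Bool.not_eq_true] at h3 h4
          rw [mem_Z_zero (by rw [e1]; exact h3)] at h1
          rw [mem_Z_zero h4]
          exact hup I _ g (Cb_nw (hcst a)) hgI (by omega) hgr h1 (nw_true.2 h4)
      rw [bm_of_mem h1, bm_of_mem h2]
      norm_num
    · rw [bm_of_not h1]
      have := bm_nonneg (zz c r (wd ρ m (c + r) τ a) I) g
      linarith
  · intro x y hx hx' hy hy'
    simp only [mem_filter, mem_univ, true_and, Bool.not_eq_true] at hx hx' hy hy'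
    rw [hf_lt _ h0 hgr, hf_lt _ h0 hgr]
    unfold zp
    rw [← hI]
    have hcx := wd_cx (m := m) h hτ x y
    have e2 : c + g - 1 + 1 = c + g := by omega
    have hle := cx_past hcx (G := c + g - 1) (by omega) hx hy (by rw [e2]; exact hx')
      (by rw [e2]; exact hy')
    have key1 : bm (zz c r (wd ρ m (c + r) τ x) I) (g - 1) ≤
        bm (zz c r (wd ρ m (c + r) τ y) I) g := by
      by_cases h1 : g - 1 ∈ (zz c r (wd ρ m (c + r) τ x) I).Z
      · rw [mem_Z_one (by rw [e1]; exact hx)] at h1
        have h2 := hpair I _ _ g (hcst x) (hcst y) hgI (by omega) hgr hle h1 hy'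
        rw [bm_of_mem ((mem_Z_one hy').2 h2)]
        exact bm_le _ _
      · rw [bm_of_not h1]
        exact bm_nonneg _ _
    have key2 : bm (zz c r (wd ρ m (c + r) τ y) I) (g - 1) ≤
        bm (zz c r (wd ρ m (c + r) τ x) I) g := by
      by_cases h1 : g - 1 ∈ (zz c r (wd ρ m (c + r) τ y) I).Z
      · rw [mem_Z_zero (by rw [e1]; exact hy)] at h1
        have h2 := hpair I _ _ g (Cb_nw (hcst y)) (Cb_nw (hcst x)) hgI (by omega) hgr
          (fun i hi hxi => by
            rw [nw_true] at hxi ⊢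
            by_contra h3
            rw [Bool.not_eq_false] at h3
            rw [hle i hi h3] at hxi
            exact absurd hxi (by simp)) h1 (nw_true.2 hx')
        rw [bm_of_mem ((mem_Z_zero hx').2 h2)]
        exact bm_le _ _
      · rw [bm_of_not h1]
        exact bm_nonneg _ _
    linarith

/-- the faces of the windows -/
theorem faceG_win (h : ASeq N ρ) {m c r : ℕ} (hm : Fintype.card α = 2 * m) (hc : 0 < c)
    (hr : 0 < r) {τ : ℕ → ℕ} (hτ : Cfg (c + r) N τ)
    (hW : ∀ I w f, Cb c r I w → 0 < f → f < c → r + f ∈ I → f - 1 ∈ W c r I w → f ∈ W c r I w)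
    {g : ℕ} (hgr : r < g) (hgC : g < c + r) (hg : gq (c + r) N τ g = 0) :
    0 ≤ FH ρ m c r N τ g := by
  classical
  have hgI : g ∈ eg (c + r) N τ := (mem_eg hτ hgC).2 hg
  set I := eg (c + r) N τ with hI
  have hcst : ∀ a, Cb c r I (wd ρ m (c + r) τ a) := fun a =>
    Cst_Cb (wd_cst h hm (by omega) hτ a)
  obtain ⟨f, rfl⟩ : ∃ f, g = r + f := ⟨g - r, by omega⟩
  unfold FH
  refine sum_nonneg fun a _ => ?_
  rw [hf_gt _ hgr, Nat.add_sub_cancel_left]
  unfold zp
  rw [← hI]
  have k1 := hW I _ f (hcst a) (by omega) (by omega) hgI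
  have k2 := hW I _ f (Cb_nw (hcst a)) (by omega) (by omega) hgI
  unfold wm zz
  simp only
  have h1 : (if f - 1 ∈ W c r I (nw (wd ρ m (c + r) τ a)) then (1 : ℝ) else 0) ≤
      if f ∈ W c r I (nw (wd ρ m (c + r) τ a)) then 1 else 0 := by
    split_ifs with h3 h4 <;> first | exact absurd (k2 h3) h4 | norm_num
  have h2 : (if f - 1 ∈ W c r I (wd ρ m (c + r) τ a) then (1 : ℝ) else 0) ≤
      if f ∈ W c r I (wd ρ m (c + r) τ a) then 1 else 0 := by
    split_ifs with h3 h4 <;> first | exact absurd (k1 h3) h4 | norm_num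
  linarith

end cfg

end Pool.Agent.H12.RS
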