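import Pool.Agent.H12.RS.FaceG
import Pool.Agent.H85.RS.Base
import Pool.Agent.H53.ES.Wn

/-!
# H12.RS.FaceGf: the closed form of RS-F
-/

set_option autoImplicit false
set_option linter.unusedSectionVars false

namespace Pool.Agent.H12.RS

open Finset Pool.Agent.H93.EA Pool.Agent.H69L.TP Pool.Agent.H85.TK Pool.Agent.H53.ES

section word

variable {c r : ℕ} {I : Finset ℕ} {w : ℕ → Bool}

/-- on the empty gap `r + f` the windows go up -/
theorem W_up' {f : ℕ} (h0 : 0 < f) (hf : f < c) (hI : r + f ∈ I) (h : f - 1 ∈ W c r I w) :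
    f ∈ W c r I w := by
  obtain ⟨b, rfl⟩ : ∃ b, f = b + 1 := ⟨f - 1, by omega⟩
  rw [Nat.add_sub_cancel, W_iff (by omega)] at h
  rw [W_iff hf, ye_next (ye_in hf hI), ys_next hI]
  omega

/-- when the free lines `f - 1` and `f` agree, and the gap `r + f` is not empty, then the windows go
down -/
theorem W_dn' {f : ℕ} (h0 : 0 < f) (hf : f < c) (hI : r + f ∉ I) (hw : w (f - 1) = w f)
    (h : f ∈ W c r I w) : f - 1 ∈ W c r I w := by
  obtain ⟨b, rfl⟩ : ∃ b, f = b + 1 := ⟨f - 1, by omega⟩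
  rw [Nat.add_sub_cancel] at hw ⊢
  rw [W_iff hf, ys_self (Or.inr hI)] at h
  rw [W_iff (by omega), ye_out (Or.inr hI)]
  have h1 := ye_gt r c I (b + 1)
  have h2 := P_lip (c := c) (r := r) (I := I) (w := w) (a := b + 1 + 1) (b := ye r c I (b + 1)) h1
  have h3 := ys_le r I b
  have h4 := zs_succ w (Nat.zero_le (b + 1))
  have h5 := zs_succ w (Nat.zero_le b)
  have h6 := zs_add (Nat.zero_le _) h3 w
  have h7 : P c r I w (b + 1 + 1) = min (A c r I w) (zs w 0 (b + 1 + 1)) := rfl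
  have h8 : P c r I w (b + 1) = min (A c r I w) (zs w 0 (b + 1)) := rfl
  have h9 : P c r I w (ys r I b) = min (A c r I w) (zs w 0 (ys r I b)) := rfl
  rw [← hw] at h4
  by_cases h10 : w b = false
  · rw [if_pos h10] at h4 h5
    omega
  · rw [if_neg h10] at h4 h5
    omega

end word

section cfg

variable {α : Type} [Fintype α] {N : ℕ} {ρ : ℕ → α → ℕ}

/-- RS-F: on an empty gap `g ≠ 0, r` the difference is nonnegative -/
theorem faceG (h : ASeq N ρ) {m c r : ℕ} (hm : Fintype.card α = 2 * m) (hc : 0 < c)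
    (hr : 0 < r) {τ : ℕ → ℕ} (hτ : Cfg (c + r) N τ) {g : ℕ} (hgC : g < c + r) (h0 : g ≠ 0)
    (hgr : g ≠ r) (hg : gq (c + r) N τ g = 0) : 0 ≤ FH ρ m c r N τ g := by
  rcases Nat.lt_or_ge g r with h1 | h1
  · refine faceG_base h hm hc hτ ?_ ?_ h0 h1 hg
    · intro I w g hw hgI h2 h3 h4 h5
      exact Pool.Agent.H85.RS.X_up hw hgI h2 h3 h4 h5
    · intro I u v g _ hv hgI h2 h3 h4 h5 h6
      exact Pool.Agent.H85.RS.X_pair hv hgI h2 h3 h4 h5 h6
  · refine faceG_win h hm hc hr hτ ?_ (by omega) hgC hg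
    intro I w f _ h2 h3 h4 h5
    exact W_up' h2 h3 h4 h5

end cfg

end Pool.Agent.H12.RS
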