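import Pool.Agent.H12.RS.T0
import Pool.Agent.H80.RE.FaceN
import Pool.Agent.H56.RS.Z
import Pool.Agent.H98.RS.Mk
import Pool.Agent.H98.ES.Fin

/-!
# H12.RS.Marks: all faces together, `Marks k r c` and the full bound
-/

set_option autoImplicit false
set_option linter.unusedSectionVars false

namespace Pool.Agent.H12.RS

open Finset Pool.Agent.H93.EA Pool.Agent.H69L.TP
open Pool.Agent.H70.ES (Marks)
open Pool.Agent.H98.RS (Faces marks_of_faces)

theorem faces {c r : ℕ} (hc : 0 < c) (hcr : c < r) :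
    Faces c r (6 * ((c : ℝ) + r) + 4 * (c : ℝ) ^ 2 + 4) where
  G := fun α _ N m ρ h hm τ hτ g hgC h0 hgr hg =>
    faceG h hm hc (by omega) hτ hgC h0 hgr hg
  N := fun α _ N m ρ h hm τ hτ g hg g' hg' h0 hgr hgc _ hgg h1 h2 =>
    (Pool.Agent.H80.RE.faceN h hm hc hcr hτ hg h0 hgr hgc h1 hg' hgg h2).trans (by
      have h3 : (0 : ℝ) ≤ c := Nat.cast_nonneg c
      have h4 : (0 : ℝ) ≤ r := Nat.cast_nonneg r
      nlinarith)
  Np := fun α _ N m ρ h hm τ hτ h1 h2 =>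
    (faceNp h hc hcr hτ h1 h2).trans (by
      have h3 : (0 : ℝ) ≤ c := Nat.cast_nonneg c
      have h4 : (0 : ℝ) ≤ r := Nat.cast_nonneg r
      nlinarith)
  T0 := fun α _ N m ρ h hm τ hτ h1 =>
    (faceT0 h hc hcr hτ h1).trans (by
      have h3 : (0 : ℝ) ≤ c := Nat.cast_nonneg c
      have h4 : (0 : ℝ) ≤ r := Nat.cast_nonneg r
      nlinarith)
  Z := fun α _ N m ρ h hm τ hτ h0 b hb hb' hth => by
    have h1 := Pool.Agent.H56.RS.faceZ h hm hc hcr hτ h0 hb hb' hth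
    have h3 : (0 : ℝ) ≤ c := Nat.cast_nonneg c
    have h4 : (0 : ℝ) ≤ r := Nat.cast_nonneg r
    linarith

/-- **Marks** for all coprime `0 < c < r`. -/
theorem marks_all (k r c : ℕ) (_hk : 1 ≤ k) (hc : 0 < c) (hcr : c < r) (hco : Nat.Coprime c r) :
    Marks k r c :=
  marks_of_faces hc hcr hco (by positivity) (faces hc hcr)

/-- **The conjecture of Erdős, Lovász, Simmons and Straus.** -/
theorem elss {n m : ℕ} (hmn : m ≤ n.choose 2) :
    (m : ℝ) ^ 2 / (n : ℝ) ^ 2 ≤ (Pool.Agent.H68.fval 2 2 1 m n : ℝ) :=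
  Pool.Agent.H98.ES.full_of_marks marks_all hmn

end Pool.Agent.H12.RS
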