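import Pool.Agent.H12.RS.FaceGf
import Pool.Agent.H80.RE.Dd

/-!
# H12.RS.T0: the faces at which all the gaps `≠ 0`, resp. `≠ 0, c`, are thin
-/

set_option autoImplicit false
set_option linter.unusedSectionVars false

namespace Pool.Agent.H12.RS

open Finset Pool.Agent.H93.EA Pool.Agent.H69L.TP Pool.Agent.H85.RS Pool.Agent.H80.RE
open Pool.Agent.H53.ES (W_card)
open Pool.Agent.H85.TK (zs be rel Cb be_gt be_le be_mem be_succ zs_add zs_le zs_succ)

section word

variable {c r : ℕ} {I : Finset ℕ} {w : ℕ → Bool}

lemma W_full (hcr : c ≤ r) (h : ∀ i < r + c, w i = false) : W c r I w = range c := by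
  have h1 := X_const_zero (I := I) hcr h
  have h2 := W_card (I := I) (w := w) hcr
  exact eq_of_subset_of_card_le (W_sub c r I w) (by rw [card_range, h2, h1.2])

lemma hf_const (hc : 0 < c) (hcr : c ≤ r) (h : ∀ i < c + r, w i = w 0) :
    hf c r (zz c r w I) 0 ≤ -1 := by
  rw [hf_zero]
  have hb : bm (zz c r w I) 0 = 0 := by
    apply bm_of_not
    unfold zz
    simp only
    rw [mem_union]
    rintro (h1 | h1)
    · have h2 := X_one h1
      rw [h (c + 0) (by omega)] at h2
      have h3 := (X_const_one (I := I) (c := c) (r := r) (w := w)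
        (fun i hi => by rw [h i (by omega)]; exact h2)).1
      rw [h3] at h1
      exact absurd h1 (notMem_empty _)
    · have h2 := X_one h1
      rw [nw_true, h (c + 0) (by omega)] at h2
      have h3 := (X_const_one (I := I) (c := c) (r := r) (w := nw w)
        (fun i hi => by rw [nw_true, h i (by omega)]; exact h2)).1
      rw [h3] at h1
      exact absurd h1 (notMem_empty _)
  have hw : 1 ≤ wm (zz c r w I) (c - 1) := by
    unfold wm zz
    simp only
    cases h0 : w 0
    · rw [W_full (w := w) hcr (fun i hi => by rw [h i (by omega)]; exact h0),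
        if_pos (mem_range.2 (by omega : c - 1 < c))]
      split_ifs <;> norm_num
    · rw [W_full (w := nw w) hcr (fun i hi => by rw [nw_false, h i (by omega)]; exact h0),
        if_pos (mem_range.2 (by omega : c - 1 < c))]
      split_ifs <;> norm_num
  rw [hb]
  linarith

lemma hf_le (g : ℕ) : hf c r (zz c r w I) g ≤ 2 := by
  unfold hf
  have a1 := bm_nonneg (zz c r w I) (g - 1)
  have a2 := bm_nonneg (zz c r w I) (r - 1)
  have a3 := bm_le (zz c r w I) 0
  have a4 := bm_le (zz c r w I) g
  have b1 := wm_nonneg (zz c r w I) (c - 1)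
  have b2 := wm_nonneg (zz c r w I) (g - r - 1)
  have b3 := wm_le (zz c r w I) 0
  have b4 := wm_le (zz c r w I) (g - r)
  split_ifs <;> linarith

/-- no mark at the step `c` when the word is constant on the free lines and on the bases -/
lemma one_step (hcr : c < r) (hI : c ∉ I) (h1 : ∀ i < c, w i = w 0)
    (h2 : ∀ i < c + r, c ≤ i → w i = w c) : c ∉ X c r I w := by
  intro hX
  have h3 := X_one hX
  have h4 : w c = true := by rw [← h2 (c + c) (by omega) (by omega)]; exact h3
  unfold X at hX
  rw [mem_filter] at hX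
  have h5 := hX.2.2.2
  have h6 := th_pos c r I c
  have h7 : rel c w c = 0 := rel_ge le_rfl
  have h8 := X_b (c := c) (r := r) (I := I) (w := w) le_rfl hcr.le
  rcases Nat.eq_zero_or_pos c with hc | hc
  · have h9 : zs w 0 c = 0 := Pool.Agent.H85.TK.zs_empty w (by omega)
    omega
  cases h0 : w 0
  · -- all free lines are zeros, all are used
    have h9 : range c ⊆ (X c r I w).filter fun T => 0 ≤ T ∧ T < c := by
      intro T hT
      rw [mem_range] at hT
      rw [mem_filter]
      refine ⟨?_, Nat.zero_le _, hT⟩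
      unfold X
      rw [mem_filter, mem_range]
      have e0 : w T = false := (h1 T hT).trans h0
      refine ⟨by omega, by rw [h2 (c + T) (by omega) (by omega)]; exact h4, fun _ => e0, ?_⟩
      have h10 : be I r T ≤ c := by
        by_contra h11
        exact hI (be_mem (r := r) hT (by omega)).1
      unfold th
      rw [if_pos hT, rel_lt hT e0]
      omega
    have h10 := card_le_card h9
    rw [card_range] at h10
    have h11 := zs_le w 0 c
    omega
  · have h9 : zs w 0 c = 0 := by
      unfold Pool.Agent.H85.TK.zs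
      rw [card_eq_zero, filter_eq_empty_iff]
      intro i hi
      rw [mem_Ico] at hi
      rw [h1 i hi.2, h0]
      simp
    omega

lemma hf_two (hc : 0 < c) (hcr : c < r) (hI : c ∉ I) (h1 : ∀ i < c, w i = w 0)
    (h2 : ∀ i < c + r, c ≤ i → w i = w c) : hf c r (zz c r w I) c ≤ 0 := by
  rw [hf_lt _ (by omega) hcr]
  have hb : bm (zz c r w I) c = 0 := by
    apply bm_of_not
    unfold zz
    simp only
    rw [mem_union]
    rintro (h3 | h3)
    · exact one_step hcr hI h1 h2 h3
    · refine one_step (w := nw w) hcr hI ?_ ?_ h3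
      · intro i hi
        unfold nw
        rw [h1 i hi]
      · intro i hi hi'
        unfold nw
        rw [h2 i hi hi']
  rw [hb]
  have := bm_nonneg (zz c r w I) (c - 1)
  linarith

end word

section cfg

variable {α : Type} [Fintype α] {N : ℕ} {ρ : ℕ → α → ℕ}

/-- few points change in the thin gaps -/
lemma few (h : ASeq N ρ) {m C : ℕ} {τ : ℕ → ℕ} (hτ : Cfg C N τ) (S : Finset ℕ)
    (hS : ∀ g ∈ S, g < C ∧ g ≠ 0 ∧ gq C N τ g ≤ 1) :
    (univ.filter fun a => ∃ g ∈ S, wd ρ m C τ a g ≠ wd ρ m C τ a (g - 1)).card ≤ 2 * S.card := by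
  classical
  have e : (univ.filter fun a => ∃ g ∈ S, wd ρ m C τ a g ≠ wd ρ m C τ a (g - 1)) ⊆
      S.biUnion fun g => univ.filter fun a => wd ρ m C τ a g ≠ wd ρ m C τ a (g - 1) := by
    intro a ha
    rw [mem_filter] at ha
    obtain ⟨g, hg, h1⟩ := ha.2
    rw [mem_biUnion]
    exact ⟨g, hg, mem_filter.2 ⟨mem_univ _, h1⟩⟩
  refine (card_le_card e).trans (card_biUnion_le.trans ?_)
  rw [mul_comm, ← smul_eq_mul, ← sum_const]
  refine sum_le_sum fun g hg => ?_
  obtain ⟨h1, h2, h3⟩ := hS g hg
  have h4 : (univ.filter fun a => wd ρ m C τ a g ≠ wd ρ m C τ a (g - 1)).card =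
      Dd ρ m (τ (g - 1)) (τ g) := by
    unfold Dd
    congr 1
    ext a
    simp only [mem_filter, mem_univ, true_and]
    unfold wd
    rw [Ne, decide_eq_decide, and_iff_right h1, and_iff_right (by omega : g - 1 < C)]
    exact not_congr iff_comm
  rw [h4]
  have h5 := hτ.mono (g - 1) g (Nat.sub_le _ _) h1
  unfold gq at h3
  rw [if_neg h2] at h3
  exact Dd_thin h h5 (by omega) (hτ.le g)

/-- (T0) -/
theorem faceT0 (h : ASeq N ρ) {m c r : ℕ} (hc : 0 < c) (hcr : c < r) {τ : ℕ → ℕ}
    (hτ : Cfg (c + r) N τ) (hth : ∀ g < c + r, g ≠ 0 → gq (c + r) N τ g ≤ 1) :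
    FH ρ m c r N τ 0 ≤ -(Fintype.card α : ℝ) + 6 * (c + r) := by
  classical
  set S := (range (c + r)).filter fun g => g ≠ 0 with hS
  have h1 := few (m := m) h hτ S (fun g hg => by
    rw [hS, mem_filter, mem_range] at hg
    exact ⟨hg.1, hg.2, hth g hg.1 hg.2⟩)
  have h2 : S.card ≤ c + r := (card_filter_le _ _).trans (by rw [card_range])
  set B := univ.filter fun a => ∃ g ∈ S, wd ρ m (c + r) τ a g ≠ wd ρ m (c + r) τ a (g - 1) with hB
  have key : ∀ a, hf c r (zp ρ m c r N τ a) 0 ≤ -1 + 3 * (if a ∈ B then (1 : ℝ) else 0) := by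
    intro a
    by_cases ha : a ∈ B
    · rw [if_pos ha]
      have := hf_le (c := c) (r := r) (I := eg (c + r) N τ) (w := wd ρ m (c + r) τ a) 0
      unfold zp
      linarith
    · rw [if_neg ha]
      have h3 : ∀ i < c + r, wd ρ m (c + r) τ a i = wd ρ m (c + r) τ a 0 := by
        intro i
        induction i with
        | zero => intro _; rfl
        | succ i ih =>
          intro hi
          rw [← ih (by omega)]
          by_contra h4
          apply ha
          rw [hB, mem_filter]
          refine ⟨mem_univ _, i + 1, ?_, ?_⟩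
          · rw [hS, mem_filter, mem_range]
            exact ⟨hi, by omega⟩
          · rw [Nat.add_sub_cancel]
            exact h4
      have := hf_const (I := eg (c + r) N τ) hc hcr.le h3
      unfold zp
      linarith
  unfold FH
  refine (sum_le_sum fun a _ => key a).trans ?_
  rw [sum_add_distrib, ← mul_sum, sum_ite_mem, univ_inter, sum_const, sum_const, card_univ,
    nsmul_eq_mul, nsmul_eq_mul, mul_one]
  have h3 : (B.card : ℝ) ≤ 2 * (c + r) := by
    have : B.card ≤ 2 * (c + r) := h1.trans (Nat.mul_le_mul_left 2 h2)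
    exact_mod_cast this
  linarith

/-- (Np) -/
theorem faceNp (h : ASeq N ρ) {m c r : ℕ} (hc : 0 < c) (hcr : c < r) {τ : ℕ → ℕ}
    (hτ : Cfg (c + r) N τ) (hg : 1 ≤ gq (c + r) N τ c)
    (hth : ∀ g < c + r, g ≠ 0 → g ≠ c → gq (c + r) N τ g ≤ 1) :
    FH ρ m c r N τ c ≤ 4 * (c + r) := by
  classical
  set S := (range (c + r)).filter fun g => g ≠ 0 ∧ g ≠ c with hS
  have h1 := few (m := m) h hτ S (fun g hg => by
    rw [hS, mem_filter, mem_range] at hg
    exact ⟨hg.1, hg.2.1, hth g hg.1 hg.2.1 hg.2.2⟩)
  have h2 : S.card ≤ c + r := (card_filter_le _ _).trans (by rw [card_range])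
  have hcI : c ∉ eg (c + r) N τ := by
    rw [mem_eg hτ (by omega)]
    omega
  set B := univ.filter fun a => ∃ g ∈ S, wd ρ m (c + r) τ a g ≠ wd ρ m (c + r) τ a (g - 1) with hB
  have key : ∀ a, hf c r (zp ρ m c r N τ a) c ≤ 2 * (if a ∈ B then (1 : ℝ) else 0) := by
    intro a
    by_cases ha : a ∈ B
    · rw [if_pos ha]
      have := hf_le (c := c) (r := r) (I := eg (c + r) N τ) (w := wd ρ m (c + r) τ a) c
      unfold zp
      linarith
    · rw [if_neg ha]
      have h5 : ∀ i, i + 1 < c + r → i + 1 ≠ c →
          wd ρ m (c + r) τ a (i + 1) = wd ρ m (c + r) τ a i := by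
        intro i hi hic
        by_contra h4
        apply ha
        rw [hB, mem_filter]
        refine ⟨mem_univ _, i + 1, ?_, ?_⟩
        · rw [hS, mem_filter, mem_range]
          exact ⟨hi, by omega, hic⟩
        · rw [Nat.add_sub_cancel]
          exact h4
      have h3 : ∀ i < c, wd ρ m (c + r) τ a i = wd ρ m (c + r) τ a 0 := by
        intro i
        induction i with
        | zero => intro _; rfl
        | succ i ih =>
          intro hi
          rw [← ih (by omega)]
          exact h5 i (by omega) (by omega)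
      have h4 : ∀ i < c + r, c ≤ i → wd ρ m (c + r) τ a i = wd ρ m (c + r) τ a c := by
        intro i hi hci
        induction i, hci using Nat.le_induction with
        | base => rfl
        | succ i hci ih =>
          rw [← ih (by omega)]
          exact h5 i (by omega) (by omega)
      have := hf_two hc hcr hcI h3 h4
      unfold zp
      linarith
  unfold FH
  refine (sum_le_sum fun a _ => key a).trans ?_
  rw [← mul_sum, sum_ite_mem, univ_inter, sum_const, nsmul_eq_mul, mul_one]
  have h3 : (B.card : ℝ) ≤ 2 * (c + r) := by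
    have : B.card ≤ 2 * (c + r) := h1.trans (Nat.mul_le_mul_left 2 h2)
    exact_mod_cast this
  linarith

end cfg

end Pool.Agent.H12.RS
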